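import Mathlib

/-!
# Multivalued nonexpansive maps and the nonstrict Opial property: preparations
-/

set_option autoImplicit false

namespace Pool.Agent.J6H26.MW

open Filter Topology

/-- The asymptotic condition with the parameters `t` and `θ`: for weakly null bounded nets `s`, `lim ‖s‖ ≤ lim ‖s + y‖`, and
`lim ‖s + y‖ ≤ θ ρ` if `‖y‖ ≤ t ρ` and `lim ‖s‖ ≤ exp (-t) ρ`. -/
def Asym (X : Type*) [NormedAddCommGroup X] [NormedSpace ℝ X] (t θ : ℝ) : Prop :=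
  ∀ (y : X) (R δ : ℝ), 0 < δ → ∃ (F : Finset (StrongDual ℝ X)) (η : ℝ), 0 < η ∧
    ∀ s : X, ‖s‖ ≤ R → (∀ f ∈ F, |f s| ≤ η) → ‖s‖ ≤ ‖s + y‖ + δ ∧
      ∀ ρ : ℝ, 0 ≤ ρ → ‖y‖ ≤ t * ρ → ‖s‖ ≤ Real.exp (-t) * ρ → ‖s + y‖ ≤ θ * ρ + δ

variable {X : Type*} [NormedAddCommGroup X] [NormedSpace ℝ X]

/-- weak convergence of `u` to `p` along a filter -/
def WLim {ι : Type*} (U : Filter ι) (u : ι → X) (p : X) : Prop :=
  ∀ f : StrongDual ℝ X, Tendsto (fun i => f (u i)) U (𝓝 (f p))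

section lem

variable {ι : Type*} {U : Filter ι}

theorem WLim.sub_const {u : ι → X} {p : X} (h : WLim U u p) (a : X) :
    WLim U (fun i => u i - a) (p - a) := by
  intro f
  simp only [map_sub]
  exact (h f).sub_const _

theorem WLim.sub {u v : ι → X} {p q : X} (h : WLim U u p) (h' : WLim U v q) :
    WLim U (fun i => u i - v i) (p - q) := by
  intro f
  simp only [map_sub]
  exact (h f).sub (h' f)

theorem asym_ev {t θ : ℝ} (hX : Asym X t θ) {s : ι → X} (hs : WLim U s 0) (R : ℝ)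
    (hR : ∀ᶠ i in U, ‖s i‖ ≤ R) (y : X) (δ : ℝ) (hδ : 0 < δ) :
    ∀ᶠ i in U, ‖s i‖ ≤ ‖s i + y‖ + δ ∧
      ∀ ρ : ℝ, 0 ≤ ρ → ‖y‖ ≤ t * ρ → ‖s i‖ ≤ Real.exp (-t) * ρ → ‖s i + y‖ ≤ θ * ρ + δ := by
  obtain ⟨F, η, hη, h⟩ := hX y R δ hδ
  have h1 : ∀ᶠ i in U, ∀ f ∈ F, |f (s i)| ≤ η := by
    rw [Filter.eventually_all_finset]
    intro f _
    have h2 := hs f
    rw [map_zero] at h2
    have h3 := h2.abs
    rw [abs_zero] at h3
    exact h3.eventually_le_const hη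
  filter_upwards [h1, hR] with i h2 h3
  exact h _ h3 h2

theorem lsc {s : ι → X} (hs : WLim U s 0) (z : X) (δ : ℝ) (hδ : 0 < δ) :
    ∀ᶠ i in U, ‖z‖ ≤ ‖s i + z‖ + δ := by
  obtain ⟨g, hg1, hg2⟩ := exists_dual_vector'' ℝ z
  have h2 := hs g
  rw [map_zero] at h2
  have h3 := h2.abs
  rw [abs_zero] at h3
  filter_upwards [h3.eventually_le_const hδ] with i h4
  have h5 : g (s i + z) ≤ ‖s i + z‖ := by
    refine (le_abs_self _).trans ?_
    rw [← Real.norm_eq_abs]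
    refine (g.le_opNorm _).trans ?_
    exact mul_le_of_le_one_left (norm_nonneg _) hg1
  rw [map_add] at h5
  have h6 : g z = ‖z‖ := by simpa using hg2
  have h7 := neg_abs_le (g (s i))
  linarith

theorem opial {t θ : ℝ} (hX : Asym X t θ) {s : ι → X} (hs : WLim U s 0) (R : ℝ)
    (hR : ∀ᶠ i in U, ‖s i‖ ≤ R) (z : X) (δ : ℝ) (hδ : 0 < δ) : ∀ᶠ i in U, ‖s i‖ ≤ ‖s i + z‖ + δ := by
  filter_upwards [asym_ev hX hs R hR z δ hδ] with i h1
  exact h1.1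

theorem wlim_exists {C : Set X} (hC : IsCompact ((toWeakSpace ℝ X) '' C)) (U : Ultrafilter ι)
    (u : ι → X) (hu : ∀ᶠ i in (U : Filter ι), u i ∈ C) : ∃ p ∈ C, WLim (U : Filter ι) u p := by
  have h1 := hC.ultrafilter_le_nhds' (U.map fun i => toWeakSpace ℝ X (u i)) (by
    rw [Ultrafilter.mem_map]
    filter_upwards [hu] with i hi
    exact ⟨_, hi, rfl⟩)
  obtain ⟨_, ⟨p, hp, rfl⟩, h2⟩ := h1
  refine ⟨p, hp, fun f => ?_⟩
  have h3 : Tendsto (fun i => toWeakSpace ℝ X (u i)) (U : Filter ι) (𝓝 (toWeakSpace ℝ X p)) := h2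
  have h4 : Continuous (fun x : WeakSpace ℝ X => f ((toWeakSpace ℝ X).symm x)) :=
    WeakBilin.eval_continuous _ f
  have h5 := (h4.tendsto (toWeakSpace ℝ X p)).comp h3
  simpa [Function.comp_def] using h5

theorem bdd {C : Set X} (hC : IsCompact ((toWeakSpace ℝ X) '' C)) : ∃ M : ℝ, ∀ x ∈ C, ‖x‖ ≤ M := by
  obtain ⟨M, hM⟩ := banach_steinhaus
    (g := fun x : C => NormedSpace.inclusionInDoubleDual ℝ X (x : X)) (by
      intro f
      have h4 : Continuous (fun x : WeakSpace ℝ X => f ((toWeakSpace ℝ X).symm x)) :=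
        WeakBilin.eval_continuous _ f
      obtain ⟨M, hM⟩ := (hC.image h4).isBounded.exists_norm_le
      refine ⟨M, fun x => ?_⟩
      exact hM _ ⟨_, ⟨x, x.2, rfl⟩, rfl⟩)
  refine ⟨M, fun x hx => ?_⟩
  have h1 := hM ⟨x, hx⟩
  have h2 : ‖NormedSpace.inclusionInDoubleDual ℝ X x‖ = ‖x‖ :=
    (NormedSpace.inclusionInDoubleDualLi ℝ (E := X)).norm_map x
  rw [← h2]
  exact h1

end lem

end Pool.Agent.J6H26.MW
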