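import Pool.Agent.J6H26.MW.Main

/-!
# Spaces with the nonstrict Opial property and an asymptotic upper `p`-estimate
-/

set_option autoImplicit false

namespace Pool.Agent.J6H26.MW

open Filter Topology

/-- For weakly null bounded nets `s` and `y : X`: `lim ‖s‖ ≤ lim ‖s + y‖` (nonstrict Opial property), and
`lim ‖s + y‖ ≤ (lim ‖s‖ ^ p + ‖y‖ ^ p) ^ (1 / p)` (asymptotic upper `p`-estimate). -/
def UpperEst (X : Type*) [NormedAddCommGroup X] [NormedSpace ℝ X] (p : ℝ) : Prop :=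
  ∀ (y : X) (R δ : ℝ), 0 < δ → ∃ (F : Finset (StrongDual ℝ X)) (η : ℝ), 0 < η ∧
    ∀ s : X, ‖s‖ ≤ R → (∀ f ∈ F, |f s| ≤ η) → ‖s‖ ≤ ‖s + y‖ + δ ∧
      ‖s + y‖ ≤ (‖s‖ ^ p + ‖y‖ ^ p) ^ (1 / p) + δ

/-- property `(m_∞)`: for weakly null bounded nets `s`: `lim ‖s + y‖ ≤ max (lim ‖s‖) ‖y‖` -/
def Flat (X : Type*) [NormedAddCommGroup X] [NormedSpace ℝ X] : Prop :=
  ∀ (y : X) (R δ : ℝ), 0 < δ → ∃ (F : Finset (StrongDual ℝ X)) (η : ℝ), 0 < η ∧
    ∀ s : X, ‖s‖ ≤ R → (∀ f ∈ F, |f s| ≤ η) → ‖s + y‖ ≤ max ‖s‖ ‖y‖ + δ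

/-- every vector is approximated by operators `P` of finite rank such that the vectors `P x` and `z - P z` are
related as disjoint vectors in a space with a monotone norm and an upper `p`-estimate -/
def Splits (X : Type*) [NormedAddCommGroup X] [NormedSpace ℝ X] (p : ℝ) : Prop :=
  ∀ (y : X) (δ : ℝ), 0 < δ → ∃ P : X →L[ℝ] X, FiniteDimensional ℝ P.range ∧ ‖y - P y‖ ≤ δ ∧
    ∀ x z : X, ‖z - P z‖ ≤ ‖P x + (z - P z)‖ ∧
      ‖P x + (z - P z)‖ ≤ (‖P x‖ ^ p + ‖z - P z‖ ^ p) ^ (1 / p)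

variable {X : Type*} [NormedAddCommGroup X] [NormedSpace ℝ X]

theorem exists_param (p : ℝ) (hp : 1 < p) :
    ∃ t θ : ℝ, 0 < t ∧ t ≤ 1 ∧ 0 ≤ θ ∧ θ < 1 ∧ (Real.exp (-t) ^ p + t ^ p) ^ (1 / p) = θ := by
  obtain ⟨c, hc⟩ : ∃ c : ℝ, c = p / (2 * (1 + p)) := ⟨_, rfl⟩
  have hc0 : 0 < c := by rw [hc]; positivity
  have hc1 : c < 1 := by
    rw [hc, div_lt_one (by positivity)]
    linarith
  obtain ⟨t, ht⟩ : ∃ t : ℝ, t = c ^ (1 / (p - 1)) := ⟨_, rfl⟩
  have hp1 : 0 < p - 1 := by linarith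
  have ht0 : 0 < t := by rw [ht]; positivity
  have ht1 : t ≤ 1 := by
    rw [ht]
    exact Real.rpow_le_one hc0.le hc1.le (by positivity)
  have htp : t ^ p = c * t := by
    have e1 : t ^ (p - 1) = c := by
      rw [ht, ← Real.rpow_mul hc0.le, one_div, inv_mul_cancel₀ hp1.ne', Real.rpow_one]
    have e2 : t ^ p = t ^ (p - 1) * t ^ (1 : ℝ) := by
      rw [← Real.rpow_add ht0]
      congr 1
      ring
    rw [e2, e1, Real.rpow_one]
  have hexp : Real.exp (-t) ^ p ≤ 1 / (1 + p * t) := by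
    rw [← Real.exp_mul]
    have e1 : -t * p = -(p * t) := by ring
    rw [e1, Real.exp_neg, one_div]
    refine inv_anti₀ (by positivity) ?_
    have := Real.add_one_le_exp (p * t)
    linarith
  have hlt : Real.exp (-t) ^ p + t ^ p < 1 := by
    have hpt : 0 < 1 + p * t := by positivity
    have e1 : c * t * (1 + p * t) < p * t := by
      have e2 : c * (1 + p) = p / 2 := by
        rw [hc]
        field_simp
      have e3 : c * t * (1 + p * t) ≤ c * t * (1 + p) := by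
        refine mul_le_mul_of_nonneg_left ?_ (by positivity)
        nlinarith
      have e4 : c * t * (1 + p) = t * (p / 2) := by rw [← e2]; ring
      nlinarith [mul_pos ht0 (by linarith : (0 : ℝ) < p)]
    have e5 : c * t < 1 - 1 / (1 + p * t) := by
      have e6 : 1 - 1 / (1 + p * t) = p * t / (1 + p * t) := by
        field_simp
        ring
      rw [e6, lt_div_iff₀ hpt]
      exact e1
    rw [htp]
    linarith
  refine ⟨t, _, ht0, ht1, by positivity, ?_, rfl⟩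
  exact Real.rpow_lt_one (by positivity) hlt (by positivity)

theorem asym_of_upperEst (p : ℝ) (hp : 1 < p) (hX : UpperEst X p) :
    ∃ t θ : ℝ, 0 < t ∧ t ≤ 1 ∧ 0 ≤ θ ∧ θ < 1 ∧ Asym X t θ := by
  obtain ⟨t, θ, ht0, ht1, hθ0, hθ1, h⟩ := exists_param p hp
  refine ⟨t, θ, ht0, ht1, hθ0, hθ1, fun y R δ hδ => ?_⟩
  obtain ⟨F, η, hη, h1⟩ := hX y R δ hδ
  refine ⟨F, η, hη, fun s hs hF => ?_⟩
  obtain ⟨h2, h3⟩ := h1 s hs hF
  refine ⟨h2, fun ρ hρ hy hs' => h3.trans ?_⟩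
  have hp0 : 0 < p := by linarith
  have e1 : ‖s‖ ^ p + ‖y‖ ^ p ≤ (Real.exp (-t) ^ p + t ^ p) * ρ ^ p := by
    rw [add_mul, ← Real.mul_rpow (Real.exp_pos _).le hρ, ← Real.mul_rpow ht0.le hρ]
    exact add_le_add (Real.rpow_le_rpow (norm_nonneg _) hs' hp0.le)
      (Real.rpow_le_rpow (norm_nonneg _) hy hp0.le)
  have e2 : (‖s‖ ^ p + ‖y‖ ^ p) ^ (1 / p) ≤ ((Real.exp (-t) ^ p + t ^ p) * ρ ^ p) ^ (1 / p) :=
    Real.rpow_le_rpow (by positivity) e1 (by positivity)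
  have e3 : ((Real.exp (-t) ^ p + t ^ p) * ρ ^ p) ^ (1 / p) = θ * ρ := by
    rw [Real.mul_rpow (by positivity) (by positivity), h, ← Real.rpow_mul hρ, mul_one_div,
      div_self hp0.ne', Real.rpow_one]
  linarith

theorem max_le_rpow {a b p : ℝ} (ha : 0 ≤ a) (hb : 0 ≤ b) (hp : 0 < p) :
    max a b ≤ (a ^ p + b ^ p) ^ (1 / p) := by
  have h1 : ∀ c : ℝ, 0 ≤ c → (c ^ p) ^ (1 / p) = c := fun c hc => by
    rw [← Real.rpow_mul hc, mul_one_div, div_self hp.ne', Real.rpow_one]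
  refine max_le ?_ ?_
  · calc a = (a ^ p) ^ (1 / p) := (h1 a ha).symm
      _ ≤ _ := Real.rpow_le_rpow (by positivity) (by linarith [Real.rpow_nonneg hb p]) (by positivity)
  · calc b = (b ^ p) ^ (1 / p) := (h1 b hb).symm
      _ ≤ _ := Real.rpow_le_rpow (by positivity) (by linarith [Real.rpow_nonneg ha p]) (by positivity)

theorem upperEst_of_flat (p : ℝ) (hp : 0 < p) (hX : Flat X) : UpperEst X p := by
  classical
  intro y R δ hδ
  obtain ⟨F1, η1, hη1, h1⟩ := hX y R δ hδ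
  obtain ⟨F2, η2, hη2, h2⟩ := hX (-y) R δ hδ
  obtain ⟨g, hg1, hg2⟩ := exists_dual_vector'' ℝ y
  refine ⟨F1 ∪ F2 ∪ {g}, min η1 (min η2 δ), by positivity, fun s hs hF => ?_⟩
  have a1 := h1 s hs fun f hf => (hF f (by simp [hf])).trans (min_le_left _ _)
  have a2 := h2 s hs fun f hf => (hF f (by simp [hf])).trans ((min_le_right _ _).trans (min_le_left _ _))
  have a3 : |g s| ≤ δ := (hF g (by simp)).trans ((min_le_right _ _).trans (min_le_right _ _))
  have a4 : ‖y‖ ≤ ‖s + y‖ + δ := by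
    have h5 : g (s + y) ≤ ‖s + y‖ := by
      refine (le_abs_self _).trans ?_
      rw [← Real.norm_eq_abs]
      exact (g.le_opNorm _).trans (mul_le_of_le_one_left (norm_nonneg _) hg1)
    rw [map_add] at h5
    have h6 : g y = ‖y‖ := by simpa using hg2
    have h7 := neg_abs_le (g s)
    linarith
  refine ⟨?_, ?_⟩
  · rw [norm_neg] at a2
    have h3 : 2 * ‖s‖ ≤ ‖s + y‖ + ‖s + -y‖ := by
      have h4 : (2 : ℝ) • s = (s + y) + (s + -y) := by
        rw [two_smul]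
        abel
      have h5 : ‖(2 : ℝ) • s‖ = 2 * ‖s‖ := by
        rw [norm_smul]
        norm_num
      rw [← h5, h4]
      exact norm_add_le _ _
    rcases le_total ‖y‖ ‖s‖ with h4 | h4
    · rw [max_eq_left h4] at a2
      linarith
    · linarith
  · have := max_le_rpow (norm_nonneg s) (norm_nonneg y) hp
    linarith

/-- a finite rank operator is small on a weak neighbourhood of 0 -/
theorem small_of_finrank (P : X →L[ℝ] X) (hP : FiniteDimensional ℝ P.range) (δ : ℝ) (hδ : 0 < δ) :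
    ∃ (F : Finset (StrongDual ℝ X)) (η : ℝ), 0 < η ∧ ∀ s : X, (∀ f ∈ F, |f s| ≤ η) → ‖P s‖ ≤ δ := by
  classical
  let b := Module.finBasis ℝ P.range
  let P' : X →L[ℝ] P.range := P.codRestrict P.range fun x => ⟨x, rfl⟩
  let f : Fin (Module.finrank ℝ P.range) → StrongDual ℝ X := fun j =>
    (LinearMap.toContinuousLinearMap (b.coord j)).comp P'
  have h1 : ∀ s : X, P s = ∑ j, f j s • (b j : X) := by
    intro s
    have h2 := congrArg (Subtype.val) (b.sum_repr (P' s))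
    rw [← show ((P' s : P.range) : X) = P s from rfl, ← h2]
    simp only [AddSubmonoidClass.coe_finsetSum, Submodule.coe_smul]
    rfl
  obtain ⟨A, hA⟩ : ∃ A : ℝ, A = ∑ j, ‖(b j : X)‖ := ⟨_, rfl⟩
  have hA0 : 0 ≤ A := by rw [hA]; positivity
  refine ⟨Finset.univ.image f, δ / (A + 1), by positivity, fun s hs => ?_⟩
  rw [h1]
  refine (norm_sum_le _ _).trans ?_
  have h3 : ∀ j ∈ (Finset.univ : Finset (Fin (Module.finrank ℝ P.range))),
      ‖f j s • (b j : X)‖ ≤ δ / (A + 1) * ‖(b j : X)‖ := by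
    intro j _
    rw [norm_smul]
    exact mul_le_mul_of_nonneg_right (hs _ (Finset.mem_image_of_mem _ (Finset.mem_univ j))) (norm_nonneg _)
  refine (Finset.sum_le_sum h3).trans ?_
  rw [← Finset.mul_sum, ← hA]
  calc δ / (A + 1) * A ≤ δ / (A + 1) * (A + 1) := mul_le_mul_of_nonneg_left (by linarith) (by positivity)
    _ = δ := by field_simp

theorem minkowski_two {a b c p : ℝ} (ha : 0 ≤ a) (hb : 0 ≤ b) (hc : 0 ≤ c) (hp : 1 ≤ p) :
    ((a + c) ^ p + (b + c) ^ p) ^ (1 / p) ≤ (a ^ p + b ^ p) ^ (1 / p) + 2 * c := by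
  have h1 := Real.Lp_add_le_of_nonneg (s := (Finset.univ : Finset (Fin 2))) (f := ![a, b]) (g := ![c, c]) hp
    (by intro i _; fin_cases i <;> simp [ha, hb]) (by intro i _; fin_cases i <;> simp [hc])
  simp only [Fin.sum_univ_two, Matrix.cons_val_zero, Matrix.cons_val_one] at h1
  refine h1.trans (add_le_add le_rfl ?_)
  have hp0 : 0 < p := by linarith
  have h2 : c ^ p + c ^ p ≤ (2 * c) ^ p := by
    rw [Real.mul_rpow (by norm_num) hc]
    have h3 : (2 : ℝ) ≤ 2 ^ p := by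
      have := Real.rpow_le_rpow_of_exponent_le (by norm_num : (1 : ℝ) ≤ 2) hp
      rwa [Real.rpow_one] at this
    nlinarith [Real.rpow_nonneg hc p]
  calc (c ^ p + c ^ p) ^ (1 / p) ≤ ((2 * c) ^ p) ^ (1 / p) :=
        Real.rpow_le_rpow (by positivity) h2 (by positivity)
    _ = 2 * c := by
        rw [← Real.rpow_mul (by positivity), mul_one_div, div_self hp0.ne', Real.rpow_one]

theorem upperEst_of_splits (p : ℝ) (hp : 1 ≤ p) (hX : Splits X p) : UpperEst X p := by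
  intro y R δ hδ
  obtain ⟨P, hP, hy, h⟩ := hX y (δ / 6) (by positivity)
  obtain ⟨F, η, hη, hF⟩ := small_of_finrank P hP (δ / 6) (by positivity)
  refine ⟨F, η, hη, fun s _ hs => ?_⟩
  have h1 := hF s hs
  obtain ⟨h2, h3⟩ := h y s
  have e1 : ‖P y + (s - P s)‖ ≤ ‖s + y‖ + (δ / 6 + δ / 6) := by
    have : P y + (s - P s) = (s + y) - ((y - P y) + P s) := by abel
    rw [this]
    refine (norm_sub_le _ _).trans (add_le_add le_rfl ?_)
    exact (norm_add_le _ _).trans (add_le_add hy h1)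
  have e2 : ‖s + y‖ ≤ ‖P y + (s - P s)‖ + (δ / 6 + δ / 6) := by
    have : s + y = (P y + (s - P s)) + ((y - P y) + P s) := by abel
    rw [this]
    refine (norm_add_le _ _).trans (add_le_add le_rfl ?_)
    exact (norm_add_le _ _).trans (add_le_add hy h1)
  have e3 : ‖s‖ ≤ ‖s - P s‖ + δ / 6 := by
    have : s = (s - P s) + P s := by abel
    calc ‖s‖ = ‖(s - P s) + P s‖ := by rw [← this]
      _ ≤ ‖s - P s‖ + ‖P s‖ := norm_add_le _ _
      _ ≤ _ := add_le_add le_rfl h1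
  have e4 : ‖s - P s‖ ≤ ‖s‖ + δ / 6 := (norm_sub_le _ _).trans (add_le_add le_rfl h1)
  have e5 : ‖P y‖ ≤ ‖y‖ + δ / 6 := by
    have : P y = y - (y - P y) := by abel
    rw [this]
    exact (norm_sub_le _ _).trans (add_le_add le_rfl hy)
  refine ⟨by linarith, ?_⟩
  have hp0 : 0 < p := by linarith
  have e6 : (‖P y‖ ^ p + ‖s - P s‖ ^ p) ^ (1 / p) ≤ ((‖s‖ + δ / 6) ^ p + (‖y‖ + δ / 6) ^ p) ^ (1 / p) := by
    refine Real.rpow_le_rpow (by positivity) ?_ (by positivity)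
    rw [add_comm]
    exact add_le_add (Real.rpow_le_rpow (norm_nonneg _) e4 hp0.le) (Real.rpow_le_rpow (norm_nonneg _) e5 hp0.le)
  have e7 := minkowski_two (norm_nonneg s) (norm_nonneg y) (by positivity : (0 : ℝ) ≤ δ / 6) hp
  linarith

/-- `c_0(Γ)` and its subspaces -/
theorem flat_c0 (Γ : Type*) [TopologicalSpace Γ] [DiscreteTopology Γ]
    (Y : Submodule ℝ (ZeroAtInftyContinuousMap Γ ℝ)) : Flat Y := by
  classical
  let ev : Γ → StrongDual ℝ (ZeroAtInftyContinuousMap Γ ℝ) := fun i =>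
    LinearMap.mkContinuous { toFun := fun f => f i, map_add' := fun _ _ => rfl, map_smul' := fun _ _ => rfl } 1
      (by
        intro f
        rw [one_mul, ← ZeroAtInftyContinuousMap.norm_toBCF_eq_norm]
        exact f.toBCF.norm_coe_le_norm i)
  intro y R δ hδ
  have hfin : {i : Γ | ¬ |(y : ZeroAtInftyContinuousMap Γ ℝ) i| < δ}.Finite := by
    have h1 := (y : ZeroAtInftyContinuousMap Γ ℝ).zero_at_infty'
    rw [Filter.cocompact_eq_cofinite] at h1
    have h2 := h1.abs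
    rw [abs_zero] at h2
    exact h2.eventually_lt_const hδ
  refine ⟨hfin.toFinset.image fun i => (ev i).comp Y.subtypeL, δ, hδ, fun s _ hs => ?_⟩
  change ‖((s + y : Y) : ZeroAtInftyContinuousMap Γ ℝ)‖ ≤ _
  rw [← ZeroAtInftyContinuousMap.norm_toBCF_eq_norm, BoundedContinuousFunction.norm_le (by positivity)]
  intro i
  have hle : ∀ z : Y, |(z : ZeroAtInftyContinuousMap Γ ℝ) i| ≤ ‖z‖ := by
    intro z
    change _ ≤ ‖(z : ZeroAtInftyContinuousMap Γ ℝ)‖
    rw [← ZeroAtInftyContinuousMap.norm_toBCF_eq_norm]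
    exact (z : ZeroAtInftyContinuousMap Γ ℝ).toBCF.norm_coe_le_norm i
  change |(s : ZeroAtInftyContinuousMap Γ ℝ) i + (y : ZeroAtInftyContinuousMap Γ ℝ) i| ≤ _
  refine (abs_add_le _ _).trans ?_
  by_cases hi : |(y : ZeroAtInftyContinuousMap Γ ℝ) i| < δ
  · exact add_le_add ((hle s).trans (le_max_left _ _)) hi.le
  · have h3 : |(s : ZeroAtInftyContinuousMap Γ ℝ) i| ≤ δ :=
      hs _ (Finset.mem_image_of_mem _ (hfin.mem_toFinset.mpr hi))
    rw [add_comm]
    exact add_le_add ((hle y).trans (le_max_right _ _)) h3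

end Pool.Agent.J6H26.MW
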