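import Pool.Agent.J6H26.MW.Basic

/-!
# Multivalued nonexpansive maps in spaces with the nonstrict Opial property: the step
-/

set_option autoImplicit false

namespace Pool.Agent.J6H26.MW

open Filter Topology

variable {X : Type*} [NormedAddCommGroup X] [NormedSpace ℝ X]

/-- the situation -/
structure Sit (C : Set X) (T : X → Set X) (D t θ : ℝ) : Prop where
  ht0 : 0 < t
  ht1 : t ≤ 1
  hθ0 : 0 ≤ θ
  hθ1 : θ < 1
  asym : Asym X t θ
  cpt : IsCompact ((toWeakSpace ℝ X) '' C)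
  conv : Convex ℝ C
  val : ∀ x ∈ C, IsCompact (T x) ∧ T x ⊆ C
  sel : ∀ u ∈ C, ∀ u' ∈ C, ∀ q ∈ T u, ∃ q' ∈ T u', ‖q' - q‖ ≤ ‖u' - u‖
  diam : ∀ x ∈ C, ∀ y ∈ C, ‖x - y‖ ≤ D

/-- approximate fixed points converging weakly to `p`, radius at most `r`, error at most `e` -/
def AFP (C : Set X) (T : X → Set X) (p : X) (r e : ℝ) : Prop :=
  ∃ U : Ultrafilter (X × X), (∀ᶠ z in (U : Filter (X × X)), z.1 ∈ C ∧ z.2 ∈ T z.1) ∧
    WLim (U : Filter (X × X)) Prod.fst p ∧
    (∀ η : ℝ, 0 < η → ∀ᶠ z in (U : Filter (X × X)), ‖z.1 - p‖ ≤ r + η) ∧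
    (∀ η : ℝ, 0 < η → ∀ᶠ z in (U : Filter (X × X)), ‖z.1 - z.2‖ ≤ e + η)

variable {C : Set X} {T : X → Set X} {D t θ : ℝ}

/-- the radius does not increase under `T` -/
theorem radius (S : Sit C T D t θ) {ι : Type*} (U : Ultrafilter ι) (u q : ι → X)
    (h : ∀ᶠ i in (U : Filter ι), u i ∈ C ∧ q i ∈ T (u i)) (p : X) (hp : p ∈ C) (r : ℝ)
    (hr : ∀ η : ℝ, 0 < η → ∀ᶠ i in (U : Filter ι), ‖u i - p‖ ≤ r + η) :
    ∃ σ ∈ C, WLim (U : Filter ι) q σ ∧ ∀ η : ℝ, 0 < η → ∀ᶠ i in (U : Filter ι), ‖q i - σ‖ ≤ r + η := by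
  have h1 : ∀ᶠ i in (U : Filter ι), q i ∈ C := by
    filter_upwards [h] with i hi
    exact (S.val _ hi.1).2 hi.2
  obtain ⟨σ, hσ, hw⟩ := wlim_exists S.cpt U q h1
  refine ⟨σ, hσ, hw, fun η hη => ?_⟩
  have h2 : ∀ i, ∃ y, (u i ∈ C ∧ q i ∈ T (u i)) → y ∈ T p ∧ ‖y - q i‖ ≤ ‖p - u i‖ := by
    intro i
    by_cases hi : u i ∈ C ∧ q i ∈ T (u i)
    · obtain ⟨y, hy1, hy2⟩ := S.sel _ hi.1 p hp _ hi.2
      exact ⟨y, fun _ => ⟨hy1, hy2⟩⟩
    · exact ⟨0, fun h => absurd h hi⟩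
  choose y hy using h2
  obtain ⟨y₀, -, h3⟩ := (S.val p hp).1.ultrafilter_le_nhds' (U.map y) (by
    rw [Ultrafilter.mem_map]
    filter_upwards [h] with i hi
    exact (hy i hi).1)
  have h3' : Tendsto y (U : Filter ι) (𝓝 y₀) := h3
  have h4 : ∀ᶠ i in (U : Filter ι), ‖y i - y₀‖ ≤ η / 3 := by
    have := (tendsto_iff_norm_sub_tendsto_zero.mp h3').eventually_le_const (by positivity : (0 : ℝ) < η / 3)
    exact this
  have h5 : WLim (U : Filter ι) (fun i => q i - σ) 0 := by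
    have := hw.sub_const σ
    rwa [sub_self] at this
  have h6 := opial S.asym h5 D (by
    filter_upwards [h1] with i hi
    exact S.diam _ hi _ hσ) (σ - y₀) (η / 3) (by positivity)
  filter_upwards [h, h4, h6, hr (η / 3) (by positivity)] with i a1 a2 a3 a4
  have a5 := (hy i a1).2
  have a6 : ‖q i - σ + (σ - y₀)‖ ≤ ‖y i - q i‖ + ‖y i - y₀‖ := by
    have e1 : q i - σ + (σ - y₀) = (y i - y₀) - (y i - q i) := by abel
    rw [e1, add_comm]
    exact norm_sub_le _ _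
  rw [norm_sub_rev p (u i)] at a5
  linarith

/-- the trail -/
theorem trail (S : Sit C T D t θ) (p : X) (hp : p ∈ C) (r : ℝ) (hr : 0 ≤ r) (h : AFP C T p r 0)
    (N : ℕ) (hN : 1 ≤ N) :
    ∃ π ∈ C, ‖π - p‖ ≤ t * r ∧ AFP C T π (Real.exp (-t) * r) ((D + r) / N) := by
  obtain ⟨U, hU1, hU2, hU3, hU4⟩ := h
  have hN0 : (0 : ℝ) < N := by exact_mod_cast hN
  have hN1 : (1 : ℝ) ≤ N := by exact_mod_cast hN
  have ht0 := S.ht0
  have ht1 := S.ht1
  obtain ⟨ε, hε⟩ : ∃ ε : ℝ, ε = t / N := ⟨_, rfl⟩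
  have hε0 : 0 < ε := by rw [hε]; positivity
  have hε1 : ε ≤ 1 := by
    rw [hε, div_le_one hN0]
    linarith
  have hεN : (N : ℝ) * ε = t := by
    rw [hε]
    field_simp
  have h1 : ∀ z : X × X, ∃ w : X × X, (z.1 ∈ C ∧ z.2 ∈ T z.1) →
      (w.1 ∈ C ∧ w.2 ∈ T w.1) ∧ w.1 = (1 - ε) • z.2 + ε • p ∧ ‖w.2 - z.2‖ ≤ ‖w.1 - z.1‖ := by
    intro z
    by_cases hz : z.1 ∈ C ∧ z.2 ∈ T z.1
    · have hz2 : z.2 ∈ C := (S.val _ hz.1).2 hz.2
      have hu : (1 - ε) • z.2 + ε • p ∈ C :=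
        S.conv hz2 hp (by linarith) hε0.le (by ring)
      obtain ⟨q', h1, h2⟩ := S.sel z.1 hz.1 _ hu z.2 hz.2
      exact ⟨((1 - ε) • z.2 + ε • p, q'), fun _ => ⟨⟨hu, h1⟩, rfl, h2⟩⟩
    · exact ⟨z, fun h => absurd h hz⟩
  choose nx hnx using h1
  have hgood : ∀ z : X × X, (z.1 ∈ C ∧ z.2 ∈ T z.1) → ∀ k : ℕ,
      ((nx^[k] z).1 ∈ C ∧ (nx^[k] z).2 ∈ T (nx^[k] z).1) := by
    intro z hz k
    induction k with
    | zero => exact hz
    | succ k ih =>
      rw [Function.iterate_succ_apply']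
      exact (hnx _ ih).1
  have hstep : ∀ z : X × X, (z.1 ∈ C ∧ z.2 ∈ T z.1) → ∀ k : ℕ,
      ‖(nx^[k + 1] z).1 - (nx^[k] z).1‖ ≤ ‖(nx z).1 - z.1‖ := by
    intro z hz k
    induction k with
    | zero => exact le_rfl
    | succ k ih =>
      have g1 := hgood z hz k
      have g2 := hgood z hz (k + 1)
      rw [Function.iterate_succ_apply' nx (k + 1)]
      have e1 := (hnx _ g2).2.1
      have e2 := (hnx _ g1).2.1
      have e3 := (hnx _ g1).2.2
      rw [← Function.iterate_succ_apply' nx k z] at e2 e3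
      rw [e1]
      have e4 : (1 - ε) • (nx^[k + 1] z).2 + ε • p - (nx^[k + 1] z).1 =
          (1 - ε) • ((nx^[k + 1] z).2 - (nx^[k] z).2) := by
        rw [e2, smul_sub]
        abel
      rw [e4, norm_smul, Real.norm_eq_abs, abs_of_nonneg (by linarith)]
      have e5 : (1 - ε) * ‖(nx^[k + 1] z).2 - (nx^[k] z).2‖ ≤ ‖(nx^[k + 1] z).2 - (nx^[k] z).2‖ :=
        mul_le_of_le_one_left (norm_nonneg _) (by linarith)
      exact e5.trans (e3.trans ih)
  have hdist : ∀ z : X × X, (z.1 ∈ C ∧ z.2 ∈ T z.1) → ∀ k : ℕ,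
      ‖(nx^[k] z).1 - z.1‖ ≤ k * ‖(nx z).1 - z.1‖ := by
    intro z hz k
    induction k with
    | zero => simp
    | succ k ih =>
      have e1 := hstep z hz k
      have e2 : ‖(nx^[k + 1] z).1 - z.1‖ ≤ ‖(nx^[k + 1] z).1 - (nx^[k] z).1‖ + ‖(nx^[k] z).1 - z.1‖ := by
        have e3 : (nx^[k + 1] z).1 - z.1 = ((nx^[k + 1] z).1 - (nx^[k] z).1) + ((nx^[k] z).1 - z.1) := by abel
        rw [e3]
        exact norm_add_le _ _
      push_cast
      linarith
  -- the first step is small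
  have hfirst : ∀ η : ℝ, 0 < η → ∀ᶠ z in (U : Filter (X × X)), ‖(nx z).1 - z.1‖ ≤ ε * r + η := by
    intro η hη
    filter_upwards [hU1, hU3 (η / 4) (by positivity), hU4 (η / 4) (by positivity)] with z a1 a2 a3
    rw [(hnx z a1).2.1]
    have e1 : (1 - ε) • z.2 + ε • p - z.1 = -((1 - ε) • (z.1 - z.2)) - ε • (z.1 - p) := by
      simp only [smul_sub, sub_smul, one_smul]
      abel
    rw [e1]
    refine (norm_sub_le _ _).trans ?_
    rw [norm_neg, norm_smul, norm_smul, Real.norm_eq_abs, Real.norm_eq_abs, abs_of_nonneg (by linarith : (0 : ℝ) ≤ 1 - ε),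
      abs_of_pos hε0]
    nlinarith [norm_nonneg (z.1 - z.2), norm_nonneg (z.1 - p)]
  -- the weak limits and the radii
  have hrad : ∀ k : ℕ, ∃ π ∈ C, WLim (U : Filter (X × X)) (fun z => (nx^[k] z).1) π ∧
      ∀ η : ℝ, 0 < η → ∀ᶠ z in (U : Filter (X × X)), ‖(nx^[k] z).1 - π‖ ≤ (1 - ε) ^ k * r + η := by
    intro k
    induction k with
    | zero =>
      refine ⟨p, hp, hU2, fun η hη => ?_⟩
      have := hU3 η hη
      simpa using this
    | succ k ih =>
      obtain ⟨π, hπ, hw, hrad⟩ := ih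
      obtain ⟨σ, hσ, hw', hrad'⟩ := radius S U (fun z => (nx^[k] z).1) (fun z => (nx^[k] z).2) (by
        filter_upwards [hU1] with z hz
        exact hgood z hz k) π hπ _ hrad
      refine ⟨(1 - ε) • σ + ε • p, S.conv hσ hp (by linarith) hε0.le (by ring), fun f => ?_,
        fun η hη => ?_⟩
      · have e1 : Tendsto (fun z : X × X => (1 - ε) * f (nx^[k] z).2 + ε * f p) (U : Filter (X × X))
            (𝓝 ((1 - ε) * f σ + ε * f p)) := ((hw' f).const_mul _).add_const _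
        have e2 : f ((1 - ε) • σ + ε • p) = (1 - ε) * f σ + ε * f p := by
          rw [map_add, map_smul, map_smul, smul_eq_mul, smul_eq_mul]
        rw [e2]
        refine e1.congr' ?_
        filter_upwards [hU1] with z hz
        rw [Function.iterate_succ_apply', (hnx _ (hgood z hz k)).2.1, map_add, map_smul, map_smul,
          smul_eq_mul, smul_eq_mul]
      · filter_upwards [hU1, hrad' η hη] with z hz hz'
        rw [Function.iterate_succ_apply', (hnx _ (hgood z hz k)).2.1]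
        have e1 : (1 - ε) • (nx^[k] z).2 + ε • p - ((1 - ε) • σ + ε • p) =
            (1 - ε) • ((nx^[k] z).2 - σ) := by
          rw [smul_sub]
          abel
        rw [e1, norm_smul, Real.norm_eq_abs, abs_of_nonneg (by linarith : (0 : ℝ) ≤ 1 - ε), pow_succ]
        have e2 : (1 - ε) * ‖(nx^[k] z).2 - σ‖ ≤ (1 - ε) * ((1 - ε) ^ k * r + η) :=
          mul_le_mul_of_nonneg_left hz' (by linarith)
        nlinarith
  obtain ⟨π, hπ, hw, hrad⟩ := hrad N
  have hpow : (1 - ε) ^ N ≤ Real.exp (-t) := by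
    have e1 : 1 - ε ≤ Real.exp (-ε) := by
      have := Real.add_one_le_exp (-ε)
      linarith
    have e2 : (1 - ε) ^ N ≤ Real.exp (-ε) ^ N := pow_le_pow_left₀ (by linarith) e1 N
    rw [← Real.exp_nat_mul] at e2
    have e3 : (N : ℝ) * -ε = -t := by linarith
    rw [e3] at e2
    exact e2
  refine ⟨π, hπ, ?_, U.map (nx^[N]), ?_, ?_, ?_, ?_⟩
  · -- distance of the weak limits
    refine le_of_forall_pos_le_add fun δ hδ => ?_
    have e1 : WLim (U : Filter (X × X)) (fun z => (nx^[N] z).1 - z.1 - (π - p)) 0 := by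
      have e2 := (hw.sub hU2).sub_const (π - p)
      rwa [sub_self] at e2
    have e3 := lsc e1 (π - p) (δ / 2) (by positivity)
    have e4 := hfirst (δ / (2 * N)) (by positivity)
    obtain ⟨z, a1, a2, a3⟩ := (e3.and (e4.and hU1)).exists
    have a4 := hdist z a3 N
    rw [sub_add_cancel] at a1
    have a5 : (N : ℝ) * ‖(nx z).1 - z.1‖ ≤ N * (ε * r + δ / (2 * N)) :=
      mul_le_mul_of_nonneg_left a2 hN0.le
    have a6 : (N : ℝ) * (ε * r + δ / (2 * N)) = t * r + δ / 2 := by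
      have : (N : ℝ) * (ε * r + δ / (2 * N)) = (N * ε) * r + δ / 2 := by
        field_simp
      rw [this, hεN]
    linarith
  · rw [Ultrafilter.coe_map, eventually_map]
    filter_upwards [hU1] with z hz
    exact hgood z hz N
  · intro f
    rw [Ultrafilter.coe_map, tendsto_map'_iff]
    exact hw f
  · intro η hη
    rw [Ultrafilter.coe_map, eventually_map]
    filter_upwards [hrad η hη] with z hz
    have : (1 - ε) ^ N * r ≤ Real.exp (-t) * r := mul_le_mul_of_nonneg_right hpow hr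
    linarith
  · intro η hη
    rw [Ultrafilter.coe_map, eventually_map]
    obtain ⟨j, rfl⟩ : ∃ j, N = j + 1 := ⟨N - 1, by omega⟩
    filter_upwards [hU1, hfirst η hη] with z hz hz'
    have g1 := hgood z hz j
    have e1 := (hnx _ g1).2.1
    have e2 := (hnx _ g1).2.2
    rw [← Function.iterate_succ_apply' nx j z] at e1 e2
    have e3 := hstep z hz j
    have hq : (nx^[j] z).2 ∈ C := (S.val _ g1.1).2 g1.2
    have e4 : (nx^[j + 1] z).1 - (nx^[j + 1] z).2 =
        ε • (p - (nx^[j] z).2) - ((nx^[j + 1] z).2 - (nx^[j] z).2) := by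
      rw [e1]
      simp only [smul_sub, sub_smul, one_smul]
      abel
    have e5 : ‖(nx^[j + 1] z).1 - (nx^[j + 1] z).2‖ ≤
        ε * ‖p - (nx^[j] z).2‖ + ‖(nx^[j + 1] z).2 - (nx^[j] z).2‖ := by
      rw [e4]
      refine (norm_sub_le _ _).trans ?_
      rw [norm_smul, Real.norm_eq_abs, abs_of_pos hε0]
    have e6 : ε * ‖p - (nx^[j] z).2‖ ≤ ε * D := mul_le_mul_of_nonneg_left (S.diam _ hp _ hq) hε0.le
    have hD : 0 ≤ D := (norm_nonneg _).trans (S.diam p hp p hp)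
    have e7 : ε * D + ε * r ≤ (D + r) / ((j + 1 : ℕ) : ℝ) := by
      rw [le_div_iff₀ hN0]
      have : (ε * D + ε * r) * ((j + 1 : ℕ) : ℝ) = (((j + 1 : ℕ) : ℝ) * ε) * (D + r) := by ring
      rw [this, hεN]
      exact mul_le_of_le_one_left (by linarith) ht1
    linarith

end Pool.Agent.J6H26.MW
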